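import Mathlib.Data.Nat.Bitwise
import Mathlib.Tactic

/-! Numbers with 32 digits in base `2 ^ 232`. -/

set_option autoImplicit false

namespace Pool.Agent.Y515.Q440

/-- the number with the digits `f i`, `i < n` -/
def SS (f : ℕ → ℕ) : ℕ → ℕ
  | 0 => 0
  | n + 1 => 2 ^ (232 * n) * f n + SS f n

lemma SS_lt {f : ℕ → ℕ} {n : ℕ} (h : ∀ i < n, f i < 2 ^ 232) : SS f n < 2 ^ (232 * n) := by
  induction n with
  | zero => simp [SS]
  | succ n ih =>
    have h1 := ih fun i hi => h i (by omega)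
    have h2 := h n (by omega)
    have h3 : 2 ^ (232 * (n + 1)) = 2 ^ (232 * n) * 2 ^ 232 := by
      rw [← pow_add]
      congr 1
    rw [SS, h3]
    have h4 : 2 ^ (232 * n) * f n + 2 ^ (232 * n) ≤ 2 ^ (232 * n) * 2 ^ 232 := by
      have : 2 ^ (232 * n) * f n + 2 ^ (232 * n) = 2 ^ (232 * n) * (f n + 1) := by ring
      rw [this]
      exact Nat.mul_le_mul_left _ h2
    exact lt_of_lt_of_le (Nat.add_lt_add_left h1 _) h4

lemma SS_testBit {f : ℕ → ℕ} {n : ℕ} (h : ∀ i < n, f i < 2 ^ 232) {i c : ℕ} (hi : i < n)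
    (hc : c < 232) : (SS f n).testBit (232 * i + c) = (f i).testBit c := by
  induction n with
  | zero => omega
  | succ n ih =>
    have h1 : SS f n < 2 ^ (232 * n) := SS_lt fun i hi => h i (by omega)
    rw [SS, Nat.testBit_two_pow_mul_add _ h1]
    rcases Nat.lt_or_ge i n with h2 | h2
    · rw [if_pos (by omega)]
      exact ih (fun i hi => h i (by omega)) h2
    · have h3 : i = n := by omega
      subst h3
      rw [if_neg (by omega)]
      congr 1
      omega

lemma SS_mod (N n : ℕ) : SS (fun i => N / 2 ^ (232 * i) % 2 ^ 232) n = N % 2 ^ (232 * n) := by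
  induction n with
  | zero => simp [SS, Nat.mod_one]
  | succ n ih =>
    have h3 : 2 ^ (232 * (n + 1)) = 2 ^ (232 * n) * 2 ^ 232 := by
      rw [← pow_add]
      congr 1
    rw [SS, ih, h3, Nat.mod_mul]
    omega

lemma SS_eq {N n : ℕ} (h : N < 2 ^ (232 * n)) : N = SS (fun i => N / 2 ^ (232 * i) % 2 ^ 232) n := by
  rw [SS_mod, Nat.mod_eq_of_lt h]

lemma SS_congr {f g : ℕ → ℕ} {n : ℕ} (h : ∀ i < n, f i = g i) : SS f n = SS g n := by
  induction n with
  | zero => rfl
  | succ n ih => rw [SS, SS, h n (by omega), ih fun i hi => h i (by omega)]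

lemma SS_add (f g : ℕ → ℕ) (n : ℕ) : SS (fun i => f i + g i) n = SS f n + SS g n := by
  induction n with
  | zero => rfl
  | succ n ih => rw [SS, SS, SS, ih]; ring

lemma SS_mul (a : ℕ) (f : ℕ → ℕ) (n : ℕ) : SS (fun i => a * f i) n = a * SS f n := by
  induction n with
  | zero => rfl
  | succ n ih => rw [SS, SS, ih]; ring

lemma SS_sub {f g : ℕ → ℕ} {n : ℕ} (h : ∀ i < n, g i ≤ f i) :
    SS f n - SS g n = SS (fun i => f i - g i) n := by
  have h1 : SS f n = SS (fun i => (f i - g i) + g i) n :=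
    SS_congr fun i hi => (Nat.sub_add_cancel (h i hi)).symm
  rw [h1, SS_add, Nat.add_sub_cancel]

/-- the digits of a number with the mask `2 ^ m - 1` in every digit -/
lemma SS_land {f : ℕ → ℕ} {n : ℕ} (h : ∀ i < n, f i < 2 ^ 232) (s m : ℕ) (hs : s + m ≤ 232) :
    (SS f n >>> s) &&& SS (fun _ => 2 ^ m - 1) n = SS (fun i => f i / 2 ^ s % 2 ^ m) n := by
  have hm : 2 ^ m ≤ 2 ^ 232 := Nat.pow_le_pow_right (by norm_num) (by omega)
  have hmp : 0 < 2 ^ m := by positivity
  have h1 : ∀ i < n, (fun _ : ℕ => 2 ^ m - 1) i < 2 ^ 232 := fun i _ => by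
    beta_reduce
    omega
  have h2 : ∀ i < n, (fun i => f i / 2 ^ s % 2 ^ m) i < 2 ^ 232 := fun i _ =>
    lt_of_lt_of_le (Nat.mod_lt _ hmp) hm
  apply Nat.eq_of_testBit_eq
  intro j
  rw [Nat.testBit_and, Nat.testBit_shiftRight]
  rcases Nat.lt_or_ge j (232 * n) with hj | hj
  · have hj1 : j = 232 * (j / 232) + j % 232 := (Nat.div_add_mod j 232).symm
    have hj2 : j / 232 < n := by omega
    have hj3 : j % 232 < 232 := Nat.mod_lt _ (by norm_num)
    rw [hj1, SS_testBit h1 hj2 hj3, SS_testBit h2 hj2 hj3, Nat.testBit_two_pow_sub_one,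
      Nat.testBit_mod_two_pow, Nat.testBit_div_two_pow]
    by_cases hc : j % 232 < m
    · have h3 : s + (232 * (j / 232) + j % 232) = 232 * (j / 232) + (j % 232 + s) := by ring
      rw [h3, SS_testBit h hj2 (by omega)]
      simp [hc]
    · simp [hc]
  · have h3 : (SS (fun _ => 2 ^ m - 1) n).testBit j = false :=
      Nat.testBit_lt_two_pow (lt_of_lt_of_le (SS_lt h1) (Nat.pow_le_pow_right (by norm_num) hj))
    have h4 : (SS (fun i => f i / 2 ^ s % 2 ^ m) n).testBit j = false :=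
      Nat.testBit_lt_two_pow (lt_of_lt_of_le (SS_lt h2) (Nat.pow_le_pow_right (by norm_num) hj))
    rw [h3, h4, Bool.and_false]

/-- a digit -/
lemma SS_digit {f : ℕ → ℕ} {n : ℕ} (h : ∀ i < n, f i < 2 ^ 232) {i : ℕ} (hi : i < n) :
    SS f n / 2 ^ (232 * i) % 2 ^ 232 = f i := by
  apply Nat.eq_of_testBit_eq
  intro c
  rw [Nat.testBit_mod_two_pow, Nat.testBit_div_two_pow]
  by_cases hc : c < 232
  · rw [Nat.add_comm, SS_testBit h hi hc]
    simp [hc]
  · have h3 : (f i).testBit c = false :=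
      Nat.testBit_lt_two_pow (lt_of_lt_of_le (h i hi) (Nat.pow_le_pow_right (by norm_num)
        (by omega)))
    rw [h3]
    simp [hc]

/-- the conjunction of eight bits -/
lemma cnj_bits {s m : ℕ} (h : ∀ c < 8, s.testBit (m + 7 + 8 * c) = true) {e : ℕ}
    (he : e.testBit m = true) :
    (((((s >>> 7) &&& (s >>> 15)) &&& (((s >>> 7) &&& (s >>> 15)) >>> 16)) &&&
      ((((s >>> 7) &&& (s >>> 15)) &&& (((s >>> 7) &&& (s >>> 15)) >>> 16)) >>> 32)) &&&
      e).testBit m = true := by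
  simp only [Nat.testBit_and, Nat.testBit_shiftRight, Bool.and_eq_true]
  refine ⟨⟨⟨⟨?_, ?_⟩, ?_, ?_⟩, ⟨?_, ?_⟩, ?_, ?_⟩, he⟩
  · rw [← h 0 (by norm_num)]; congr 1; ring
  · rw [← h 1 (by norm_num)]; congr 1; ring
  · rw [← h 2 (by norm_num)]; congr 1; ring
  · rw [← h 3 (by norm_num)]; congr 1; ring
  · rw [← h 4 (by norm_num)]; congr 1; ring
  · rw [← h 5 (by norm_num)]; congr 1; ring
  · rw [← h 6 (by norm_num)]; congr 1; ring
  · rw [← h 7 (by norm_num)]; congr 1; ring

/-- the lanes -/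
lemma lane_bits {w : ℕ}
    (h : ((w / 2 ^ 8 % 2 ^ 64 + 9259542123273814144) -
      (w / 2 ^ 64 % 2 ^ 8) * 72340172838076673) &&& 9259542123273814144 = 9259542123273814144)
    {c : ℕ} (hc : c < 8) :
    (w / 2 ^ 8 % 2 ^ 64 + (2 ^ 72 + 9259542123273814144) -
      72340172838076673 * (w / 2 ^ 64 % 2 ^ 8)).testBit (7 + 8 * c) = true := by
  set y := w / 2 ^ 8 % 2 ^ 64 with hy
  set l := w / 2 ^ 64 % 2 ^ 8 with hl
  have hy1 : y < 2 ^ 64 := Nat.mod_lt _ (by norm_num)
  have hl1 : l < 2 ^ 8 := Nat.mod_lt _ (by norm_num)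
  set a := (y + 9259542123273814144) - l * 72340172838076673 with ha
  have ha0 : a ≠ 0 := by
    intro h0
    rw [h0, Nat.zero_and] at h
    exact absurd h (by norm_num)
  have h1 : l * 72340172838076673 < y + 9259542123273814144 := by omega
  have h2 : y + (2 ^ 72 + 9259542123273814144) - 72340172838076673 * l = 2 ^ 72 * 1 + a := by
    rw [ha]
    have : 72340172838076673 * l = l * 72340172838076673 := Nat.mul_comm _ _
    omega
  have h3 : a < 2 ^ 72 := by
    have : (2 : ℕ) ^ 64 + 9259542123273814144 < 2 ^ 72 := by norm_num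
    omega
  rw [h2, Nat.testBit_two_pow_mul_add _ h3, if_pos (by omega)]
  have h4 : (a &&& 9259542123273814144).testBit (7 + 8 * c) = true := by
    rw [h]
    have : ∀ c < 8, (9259542123273814144 : ℕ).testBit (7 + 8 * c) = true := by decide
    exact this c hc
  rw [Nat.testBit_and, Bool.and_eq_true] at h4
  exact h4.1

end Pool.Agent.Y515.Q440
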