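import Pool.Agent.Y440.B.Blk
import Pool.Agent.Y515.Q440.SS

/-! The enumeration in blocks implies the enumeration. -/

set_option autoImplicit false
set_option maxRecDepth 100000

namespace Pool.Agent.Y515.Q440

open Pool.Agent.Y440.B

lemma bc_false {α : Type} (x y : α) : bc false x y = y := rfl

lemma bc_imp {c : Bool} {x : Bool} (h : bc c x true = true) (hc : c = true) : x = true := by
  subst hc
  exact h

lemma bc_intro {c : Bool} {x : Bool} (h : c = true → x = true) : bc c x true = true := by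
  cases c with
  | false => rfl
  | true => exact h rfl

lemma al_iff {n : ℕ} {f : ℕ → Bool} : al n f = true ↔ ∀ i < n, f i = true := by
  induction n with
  | zero => exact ⟨fun _ i hi => absurd hi (Nat.not_lt_zero i), fun _ => rfl⟩
  | succ n ih =>
    have h1 : al (n + 1) f = bc (f n) (al n f) false := rfl
    rw [h1]
    constructor
    · intro h
      have h2 : f n = true := by
        cases hf : f n with
        | false => rw [hf] at h; exact absurd h (by simp [bc])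
        | true => rfl
      rw [h2] at h
      have h3 := ih.1 h
      intro i hi
      rcases Nat.lt_succ_iff_lt_or_eq.1 hi with h4 | h4
      · exact h3 i h4
      · rw [h4]; exact h2
    · intro h
      rw [h n (Nat.lt_succ_self n)]
      exact ih.2 fun i hi => h i (Nat.lt_succ_of_lt hi)

theorem mW_eq : mW = 2 ^ 232 := by decide +kernel
theorem mB_eq : mB = 2 ^ (232 * 32) := by decide +kernel

lemma tb_eq (T w m i : ℕ) : tb T w m i = T / 2 ^ (w * i) % m := by
  unfold tb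
  show (T >>> (w * i)) % m = _
  rw [Nat.shiftRight_eq_div_pow]

lemma fW_eq (T i : ℕ) : fW T i = T / 2 ^ (232 * i) % 2 ^ 232 := by
  unfold fW
  rw [tb_eq, mW_eq]

lemma bW_eq (T i : ℕ) : bW T i = T / 2 ^ (7424 * i) % 2 ^ (232 * 32) := by
  unfold bW
  show (T >>> (7424 * i)) % mB = _
  rw [Nat.shiftRight_eq_div_pow, mB_eq]

lemma bW_lt (T i : ℕ) : bW T i < 2 ^ (232 * 32) := by
  rw [bW_eq]
  exact Nat.mod_lt _ (by positivity)

/-- digits from a check -/
lemma dig_tab {N : ℕ} {T : ℕ → ℕ} (hlt : N < 2 ^ (232 * 32))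
    (hd : al 32 (fun i => Nat.beq (fW N i) (T i)) = true) : N = SS T 32 := by
  refine (SS_eq hlt).trans (SS_congr fun i hi => ?_)
  have h1 := Nat.eq_of_beq_eq_true (al_iff.1 hd i hi)
  rw [fW_eq] at h1
  exact h1

theorem b1s_lt : b1s < 2 ^ (232 * 32) := by decide +kernel
theorem b64_lt : b64 < 2 ^ (232 * 32) := by decide +kernel
theorem b8_lt : b8 < 2 ^ (232 * 32) := by decide +kernel
theorem bG_lt : bG < 2 ^ (232 * 32) := by decide +kernel
theorem ta0_lt : ta0 < 2 ^ (232 * 32) := by decide +kernel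
theorem b1s_ck : al 32 (fun i => Nat.beq (fW b1s i) 1) = true := by decide +kernel
theorem b64_ck : al 32 (fun i => Nat.beq (fW b64 i) (2 ^ 64 - 1)) = true := by decide +kernel
theorem b8_ck : al 32 (fun i => Nat.beq (fW b8 i) (2 ^ 8 - 1)) = true := by decide +kernel
theorem bG_ck : al 32 (fun i => Nat.beq (fW bG i) (2 ^ 72 + 9259542123273814144)) = true := by
  decide +kernel

theorem b1s_dig : b1s = SS (fun _ => 1) 32 := dig_tab b1s_lt b1s_ck
theorem b64_dig : b64 = SS (fun _ => 2 ^ 64 - 1) 32 := dig_tab b64_lt b64_ck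
theorem b8_dig : b8 = SS (fun _ => 2 ^ 8 - 1) 32 := dig_tab b8_lt b8_ck
theorem bG_dig : bG = SS (fun _ => 2 ^ 72 + 9259542123273814144) 32 := dig_tab bG_lt bG_ck

theorem ta0_dig : ta0 = SS (fun i => fW ta0 i) 32 := by
  refine (SS_eq ta0_lt).trans (SS_congr fun i hi => ?_)
  rw [fW_eq]

/-- record of the linear map -/
noncomputable def tl (i : ℕ) : ℕ := tb tl0 20 1048576 i

theorem pt0_ck : al 32 (fun v => st (fun b => al 32 (fun i => Nat.beq (fW b i)
    (fW tt0 (Nat.xor v (Nat.mod (tb tl0 20 1048576 i) 32))))) (bW pt0 v)) = true := by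
  decide +kernel
theorem pt1_ck : al 32 (fun v => st (fun b => al 32 (fun i => Nat.beq (fW b i)
    (fW tt1 (Nat.xor v (Nat.mod (Nat.div (tb tl0 20 1048576 i) 32) 32))))) (bW pt1 v)) = true := by
  decide +kernel
theorem pt2_ck : al 32 (fun v => st (fun b => al 32 (fun i => Nat.beq (fW b i)
    (fW tt2 (Nat.xor v (Nat.mod (Nat.div (tb tl0 20 1048576 i) 1024) 32))))) (bW pt2 v)) =
    true := by
  decide +kernel
theorem pt3_ck : al 32 (fun v => st (fun b => al 32 (fun i => Nat.beq (fW b i)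
    (fW tt3 (Nat.xor v (Nat.div (tb tl0 20 1048576 i) 32768))))) (bW pt3 v)) = true := by
  decide +kernel

/-- bound for the records -/
lemma rec_le {T : ℕ} (h : T < 2 ^ (232 * 32))
    (h' : al 32 (fun i => Nat.ble (fW T i) (fW T 31)) = true) (i : ℕ) : fW T i ≤ fW T 31 := by
  rcases Nat.lt_or_ge i 32 with hi | hi
  · exact Nat.le_of_ble_eq_true (al_iff.1 h' i hi)
  · have h1 : T / 2 ^ (232 * i) = 0 := by
      apply Nat.div_eq_of_lt
      exact lt_of_lt_of_le h (Nat.pow_le_pow_right (by norm_num) (by omega))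
    rw [fW_eq, h1, Nat.zero_mod]
    exact Nat.zero_le _

theorem tr0_le (i : ℕ) : fW tr0 i ≤ fW tr0 31 :=
  rec_le (by decide +kernel) (by decide +kernel) i
theorem tr1_le (i : ℕ) : fW tr1 i ≤ fW tr1 31 :=
  rec_le (by decide +kernel) (by decide +kernel) i
theorem tr2_le (i : ℕ) : fW tr2 i ≤ fW tr2 31 :=
  rec_le (by decide +kernel) (by decide +kernel) i
theorem tr3_le (i : ℕ) : fW tr3 i ≤ fW tr3 31 :=
  rec_le (by decide +kernel) (by decide +kernel) i
theorem ts0_le (i : ℕ) : fW ts0 i ≤ fW ts0 31 :=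
  rec_le (by decide +kernel) (by decide +kernel) i
theorem ts1_le (i : ℕ) : fW ts1 i ≤ fW ts1 31 :=
  rec_le (by decide +kernel) (by decide +kernel) i
theorem ts2_le (i : ℕ) : fW ts2 i ≤ fW ts2 31 :=
  rec_le (by decide +kernel) (by decide +kernel) i
theorem ta2_le (i : ℕ) : fW ta2 i ≤ fW ta2 31 :=
  rec_le (by decide +kernel) (by decide +kernel) i
theorem ta1_le (i : ℕ) : fW ta1 i ≤ fW ta1 31 :=
  rec_le (by decide +kernel) (by decide +kernel) i
theorem ta0_le (i : ℕ) : fW ta0 i ≤ fW ta0 31 :=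
  rec_le (by decide +kernel) (by decide +kernel) i
theorem tt0_le (i : ℕ) : fW tt0 i ≤ fW tt0 31 :=
  rec_le (by decide +kernel) (by decide +kernel) i
theorem tt1_le (i : ℕ) : fW tt1 i ≤ fW tt1 31 :=
  rec_le (by decide +kernel) (by decide +kernel) i
theorem tt2_le (i : ℕ) : fW tt2 i ≤ fW tt2 31 :=
  rec_le (by decide +kernel) (by decide +kernel) i
theorem tt3_le (i : ℕ) : fW tt3 i ≤ fW tt3 31 :=
  rec_le (by decide +kernel) (by decide +kernel) i

theorem sum_lt : fW ta0 31 + (fW tt0 31 + fW tt1 31 + (fW tt2 31 + fW tt3 31)) +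
    (fW tr0 31 + fW tr1 31 + (fW tr2 31 + fW tr3 31) + (fW ts0 31 + fW ts1 31 + fW ts2 31) +
    fW ta2 31 + fW ta1 31) < 2 ^ 232 := by decide +kernel

/-- the words of a block -/
noncomputable def wj (Y D i : ℕ) : ℕ := Y + fW ta0 i +
  (fW tt0 ((D ^^^ tl i) % 32) + fW tt1 ((D ^^^ tl i) / 32 % 32) +
    (fW tt2 ((D ^^^ tl i) / 1024 % 32) + fW tt3 ((D ^^^ tl i) / 32768)))

lemma inner_eq (leaf : ℕ → Bool) (Y D i : ℕ) :
    Pool.Agent.Y440.B.inner leaf Y D i = leaf (wj Y D i) := by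
  unfold Pool.Agent.Y440.B.inner
  rw [st_eq, st_eq]
  rfl

lemma blk_eq (Y D : ℕ) : blk Y D = Y * b1s + ta0 + (bW pt0 (D % 32) + bW pt1 (D / 32 % 32) +
    (bW pt2 (D / 1024 % 32) + bW pt3 (D / 32768))) := by
  unfold blk
  rw [st_eq, st_eq, st_eq, st_eq]
  rfl

lemma blk_SS (Y : ℕ) {D : ℕ} (hD : D < 1048576) : blk Y D = SS (wj Y D) 32 := by
  have h0 : bW pt0 (D % 32) = SS (fun i => fW tt0 ((D ^^^ tl i) % 32)) 32 := by
    have h1 := al_iff.1 pt0_ck (D % 32) (Nat.mod_lt _ (by norm_num))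
    rw [st_eq] at h1
    refine (dig_tab (bW_lt _ _) h1).trans (SS_congr fun i _ => ?_)
    have h2 : (D ^^^ tl i) % 2 ^ 5 = (D % 2 ^ 5) ^^^ (tl i % 2 ^ 5) := Nat.xor_mod_two_pow
    exact congrArg (fW tt0) h2.symm
  have h1 : bW pt1 (D / 32 % 32) = SS (fun i => fW tt1 ((D ^^^ tl i) / 32 % 32)) 32 := by
    have h1 := al_iff.1 pt1_ck (D / 32 % 32) (Nat.mod_lt _ (by norm_num))
    rw [st_eq] at h1
    refine (dig_tab (bW_lt _ _) h1).trans (SS_congr fun i _ => ?_)
    have h2 : (D ^^^ tl i) / 2 ^ 5 % 2 ^ 5 = (D / 2 ^ 5 % 2 ^ 5) ^^^ (tl i / 2 ^ 5 % 2 ^ 5) := by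
      rw [Nat.xor_div_two_pow, Nat.xor_mod_two_pow]
    exact congrArg (fW tt1) h2.symm
  have h2 : bW pt2 (D / 1024 % 32) = SS (fun i => fW tt2 ((D ^^^ tl i) / 1024 % 32)) 32 := by
    have h1 := al_iff.1 pt2_ck (D / 1024 % 32) (Nat.mod_lt _ (by norm_num))
    rw [st_eq] at h1
    refine (dig_tab (bW_lt _ _) h1).trans (SS_congr fun i _ => ?_)
    have h2 : (D ^^^ tl i) / 2 ^ 10 % 2 ^ 5 =
        (D / 2 ^ 10 % 2 ^ 5) ^^^ (tl i / 2 ^ 10 % 2 ^ 5) := by
      rw [Nat.xor_div_two_pow, Nat.xor_mod_two_pow]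
    exact congrArg (fW tt2) h2.symm
  have h3 : bW pt3 (D / 32768) = SS (fun i => fW tt3 ((D ^^^ tl i) / 32768)) 32 := by
    have h1 := al_iff.1 pt3_ck (D / 32768) (by omega)
    rw [st_eq] at h1
    refine (dig_tab (bW_lt _ _) h1).trans (SS_congr fun i _ => ?_)
    have h2 : (D ^^^ tl i) / 2 ^ 15 = (D / 2 ^ 15) ^^^ (tl i / 2 ^ 15) := by
      rw [Nat.xor_div_two_pow]
    exact congrArg (fW tt3) h2.symm
  have hb : Y * b1s = SS (fun _ => Y) 32 := by
    rw [b1s_dig, ← SS_mul]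
    exact SS_congr fun i _ => Nat.mul_one Y
  rw [blk_eq, h0, h1, h2, h3, hb]
  conv_lhs => rw [ta0_dig]
  rw [← SS_add, ← SS_add, ← SS_add, ← SS_add, ← SS_add]
  rfl

/-- bound for `Y` -/
noncomputable def YB : ℕ := fW tr0 31 + fW tr1 31 + (fW tr2 31 + fW tr3 31) +
  (fW ts0 31 + fW ts1 31 + fW ts2 31) + fW ta2 31 + fW ta1 31

lemma wj_lt {Y : ℕ} (hY : Y ≤ YB) (D i : ℕ) : wj Y D i < 2 ^ 232 := by
  have h := sum_lt
  have h0 := ta0_le i
  have h1 := tt0_le ((D ^^^ tl i) % 32)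
  have h2 := tt1_le ((D ^^^ tl i) / 32 % 32)
  have h3 := tt2_le ((D ^^^ tl i) / 1024 % 32)
  have h4 := tt3_le ((D ^^^ tl i) / 32768)
  unfold wj
  unfold YB at hY
  omega

lemma mn_iff (X : ℕ) (h : mn X = true) : ((X / 2 ^ 8 % 2 ^ 64 + 9259542123273814144) -
    (X / 2 ^ 64 % 2 ^ 8) * 72340172838076673) &&& 9259542123273814144 = 9259542123273814144 := by
  unfold mn at h
  rw [st_eq] at h
  have h1 := Nat.eq_of_beq_eq_true h
  have h2 : Nat.mod (Nat.shiftRight X 8) 18446744073709551616 = X / 2 ^ 8 % 2 ^ 64 := by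
    show (X >>> 8) % 18446744073709551616 = _
    rw [Nat.shiftRight_eq_div_pow]
    norm_num
  rw [h2] at h1
  have h3 : Nat.div (X / 2 ^ 8 % 2 ^ 64) 72057594037927936 = X / 2 ^ 64 % 2 ^ 8 := by
    show (X / 2 ^ 8 % 2 ^ 64) / 72057594037927936 = _
    omega
  rw [h3] at h1
  exact h1

lemma innB_imp {lf : ℕ → Bool} {Y D : ℕ} (hY : Y ≤ YB) (hD : D < 1048576)
    (h : innB lf (blk Y D) = true) {i : ℕ} (hi : i < 32) :
    Pool.Agent.Y440.B.inner (fun X => bc (mn X) (lf X) true) Y D i = true := by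
  rw [inner_eq]
  apply bc_intro
  intro hmn
  have hlt : ∀ i < 32, wj Y D i < 2 ^ 232 := fun i _ => wj_lt hY D i
  have hb := blk_SS Y hD
  -- the number of the signs
  have hs : sgn (blk Y D) = SS (fun i => (wj Y D i / 2 ^ 8 % 2 ^ 64 +
      (2 ^ 72 + 9259542123273814144)) - 72340172838076673 * (wj Y D i / 2 ^ 64 % 2 ^ 8)) 32 := by
    have h1 : sgn (blk Y D) = ((blk Y D >>> 8) &&& b64) + bG -
        72340172838076673 * ((blk Y D >>> 64) &&& b8) := rfl
    rw [h1, hb, b64_dig, b8_dig, bG_dig, SS_land hlt 8 64 (by norm_num),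
      SS_land hlt 64 8 (by norm_num), ← SS_add, ← SS_mul, SS_sub]
    intro j _
    have h2 : wj Y D j / 2 ^ 64 % 2 ^ 8 < 2 ^ 8 := Nat.mod_lt _ (by norm_num)
    omega
  have hslt : ∀ i < 32, (fun i => (wj Y D i / 2 ^ 8 % 2 ^ 64 +
      (2 ^ 72 + 9259542123273814144)) - 72340172838076673 * (wj Y D i / 2 ^ 64 % 2 ^ 8)) i <
      2 ^ 232 := by
    intro j _
    beta_reduce
    have h2 : wj Y D j / 2 ^ 8 % 2 ^ 64 < 2 ^ 64 := Nat.mod_lt _ (by norm_num)
    omega
  have ht : (cnj (sgn (blk Y D))).testBit (232 * i) = true := by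
    have h1 : ∀ s : ℕ, cnj s = (((((s >>> 7) &&& (s >>> 15)) &&&
      (((s >>> 7) &&& (s >>> 15)) >>> 16)) &&&
      ((((s >>> 7) &&& (s >>> 15)) &&& (((s >>> 7) &&& (s >>> 15)) >>> 16)) >>> 32)) &&&
      b1s) := by
      intro s
      unfold cnj
      rw [st_eq, st_eq]
      rfl
    rw [h1]
    apply cnj_bits
    · intro c hc
      have h2 : 232 * i + 7 + 8 * c = 232 * i + (7 + 8 * c) := by ring
      rw [h2, hs, SS_testBit hslt hi (by omega)]
      exact lane_bits (mn_iff _ hmn) hc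
    · have h2 : 232 * i = 232 * i + 0 := rfl
      rw [h2, b1s_dig, SS_testBit (fun i _ => by norm_num) hi (by norm_num)]
      rfl
  unfold innB at h
  rw [st_eq, st_eq] at h
  have h3 : Nat.beq (cnj (sgn (blk Y D))) 0 = false := by
    by_contra hne
    rw [Bool.not_eq_false] at hne
    have h4 := Nat.eq_of_beq_eq_true hne
    rw [h4, Nat.zero_testBit] at ht
    exact Bool.noConfusion ht
  rw [h3, bc_false] at h
  have h4 := al_iff.1 h i hi
  rw [st_eq, st_eq] at h4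
  have h5 := bc_imp h4 (by
    have h6 : Nat.mod (Nat.shiftRight (cnj (sgn (blk Y D))) (Nat.mul 232 i)) 2 = 1 := by
      show (cnj (sgn (blk Y D)) >>> (232 * i)) % 2 = 1
      rw [Nat.testBit_eq_decide_div_mod_eq] at ht
      rw [Nat.shiftRight_eq_div_pow]
      exact of_decide_eq_true ht
    rw [h6]
    rfl)
  have h7 : Nat.mod (Nat.shiftRight (blk Y D) (Nat.mul 232 i)) mW = wj Y D i := by
    show (blk Y D >>> (232 * i)) % mW = _
    rw [Nat.shiftRight_eq_div_pow, mW_eq, hb, SS_digit hlt hi]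
  rw [h7] at h5
  exact h5

lemma WB_le (r : ℕ) : WB r ≤ fW tr0 31 + fW tr1 31 + (fW tr2 31 + fW tr3 31) +
    (fW ts0 31 + fW ts1 31 + fW ts2 31) := by
  unfold WB
  rw [st_eq]
  exact Nat.add_le_add (Nat.add_le_add (Nat.add_le_add (tr0_le _) (tr1_le _))
    (Nat.add_le_add (tr2_le _) (tr3_le _)))
    (Nat.add_le_add (Nat.add_le_add (ts0_le _) (ts1_le _)) (ts2_le _))

lemma tb_lt (T i : ℕ) : tb T 20 1048576 i < 2 ^ 20 := by
  unfold tb
  exact Nat.mod_lt _ (by norm_num)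

theorem t_blk : S_blk := by
  intro lf r hr h
  unfold chkB at h
  unfold chk
  rw [st_eq, st_eq] at h ⊢
  rw [al_iff] at h ⊢
  intro i hi
  have h1 := h i hi
  unfold outB at h1
  unfold outer
  rw [st_eq, st_eq] at h1 ⊢
  rw [al_iff] at h1 ⊢
  intro j hj
  have h2 := h1 j hj
  unfold midB at h2
  unfold middle
  rw [st_eq, st_eq, st_eq] at h2
  rw [st_eq, st_eq, al_iff]
  intro l hl
  refine innB_imp ?_ ?_ h2 hl
  · have h3 := WB_le r
    have h4 := ta2_le i
    have h5 := ta1_le j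
    show WB r + fW ta2 i + fW ta1 j ≤ YB
    unfold YB
    omega
  · have hr' : r < 2 ^ 20 := hr
    exact Nat.xor_lt_two_pow (n := 20) (Nat.xor_lt_two_pow (Nat.xor_lt_two_pow hr' (by norm_num))
      (tb_lt _ _)) (tb_lt _ _)

end Pool.Agent.Y515.Q440
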